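import Pool.Agent.TH855.VeroneseZ.Vanish

set_option autoImplicit false

namespace Pool.Agent.Results.MP_0e68d2_ag.NonvanishingAllDegrees

open Pool.TH855.Veronese Pool.TH855.VeroneseZ

/-- Let `k` be a field, `d ≥ 1`, and `b`, `q` integers.
(1) If `qd+b < 0` or `qd+b > (n+1)(d-1)`, then `K_{p,q}(P^n, b; d) = 0` for all `p`.
(2) Every other value can be written `qd+b = s(d-1)+c` with `0 ≤ s ≤ n`, `0 ≤ c ≤ d-1`, and then
`K_{p,q}(P^n, b; d) ≠ 0` for all `p` with
`binom(d+s,s) - binom(d+s-c-1,s) - s ≤ p ≤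
  binom(d+n,n) - binom(d+n-s,n-s) + binom(n-s+c,n-s) - s - 1`;
its dimension is at least `binom(mu - lam, p - lam)` where `lam`, `mu` are the ends of this range.
The monomials of degree `d` are ordered arbitrarily (this only fixes the signs). -/
theorem result (k : Type) [Field k] (n d p : ℕ) (hd : 1 ≤ d) (b q : ℤ) [LinearOrder (Mon n d)] :
    (q * d + b < 0 ∨ ((n + 1) * (d - 1) : ℤ) < q * d + b → Subsingleton (KpqZ k n d b p q)) ∧
    ∀ (s c : ℕ) (lam mu : ℤ), s ≤ n → c + 1 ≤ d → q * d + b = s * (d - 1) + c →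
      lam = (d + s).choose s - (d + s - c - 1).choose s - s →
      mu = (d + n).choose n - (d + n - s).choose (n - s) + (n - s + c).choose (n - s) - s - 1 →
      lam ≤ p → p ≤ mu →
      Nontrivial (KpqZ k n d b p q) ∧
        (((mu - lam).toNat.choose (p - lam).toNat : ℕ) : Cardinal) ≤
          Module.rank k (KpqZ k n d b p q) := by
  refine ⟨fun h => row_vanish k n d p b q hd h, ?_⟩
  intro s c lam mu hs hc he hlam hmu hp hp'
  have h0 : 0 ≤ lam := by
    have := Pool.TH855.VeroneseZ.card_DD (n := n) s c hs hc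
    have h : ((Pool.TH855.VeroneseZ.DD n d s c).card : ℤ) + (d + s - c - 1).choose s + s =
      (d + s).choose s := by
      exact_mod_cast this
    have h' : (0 : ℤ) ≤ (Pool.TH855.VeroneseZ.DD n d s c).card := Int.natCast_nonneg _
    omega
  obtain ⟨l, rfl⟩ := Int.eq_ofNat_of_zero_le h0
  obtain ⟨m, rfl⟩ := Int.eq_ofNat_of_zero_le (h0.trans (hp.trans hp'))
  have hp1 : l ≤ p := by exact_mod_cast hp
  have hp2 : p ≤ m := by exact_mod_cast hp'
  have h := Pool.TH855.VeroneseZ.main k n d p b q s c hs hc he l m hlam hmu hp1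
  have e1 : ((m : ℤ) - (l : ℤ)).toNat = m - l := by omega
  have e2 : ((p : ℤ) - (l : ℤ)).toNat = p - l := by omega
  rw [e1, e2]
  refine ⟨?_, h⟩
  by_contra hn
  rw [not_nontrivial_iff_subsingleton] at hn
  have h1 : Module.rank k (KpqZ k n d b p q) = 0 := rank_subsingleton' _ _
  rw [h1] at h
  have h2 : 0 < (m - l).choose (p - l) := Nat.choose_pos (by omega)
  have h3 := nonpos_iff_eq_zero.1 h
  rw [Nat.cast_eq_zero] at h3
  omega

end Pool.Agent.Results.MP_0e68d2_ag.NonvanishingAllDegrees
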